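import Mathlib

set_option autoImplicit false

namespace Pool.Agent.H380Z.Warm

/-- The infinite rooted tree `T^d`: vertices are the finite words over `Fin d`, the root is the
empty word, and the `d` children of `u` are the words `i :: u`.  The distance of a vertex from the
root is the length of the word. -/
def tree (d : ℕ) : SimpleGraph (List (Fin d)) :=
  SimpleGraph.fromRel (fun u v => ∃ i : Fin d, v = i :: u)

/-- A homomorphism `φ : T^d → G` is cold if for some vertex `a` of `G` and every `k ≥ 1` no
homomorphism `ψ : T^d → G` agrees with `φ` on all vertices at distance `k` from the root and maps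
the root to `a`. -/
def Cold {V : Type} {G : SimpleGraph V} {d : ℕ} (φ : tree d →g G) : Prop :=
  ∃ a : V, ∀ k : ℕ, 1 ≤ k →
    ¬ ∃ ψ : tree d →g G, (∀ u : List (Fin d), u.length = k → ψ u = φ u) ∧ ψ [] = a

/-- For `d ≥ 2`, `G` is `d`-warm if no homomorphism `T^(d-2) → G` is cold. -/
def IsWarm {V : Type} (G : SimpleGraph V) (d : ℕ) : Prop :=
  2 ≤ d ∧ ∀ φ : tree (d - 2) →g G, ¬ Cold φ

/-- The geometric realisation of the neighbourhood complex of the finite graph `H`: the points of
the standard simplex on the vertices whose support has a common neighbour in `H`. -/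
def NbhdSpace {V : Type} [Fintype V] (H : SimpleGraph V) : Type :=
  {p : V → ℝ // (∀ v, 0 ≤ p v) ∧ ∑ v, p v = 1 ∧ ∃ w, ∀ v, p v ≠ 0 → H.Adj v w}

/-- The subspace topology from `V → ℝ`. -/
instance {V : Type} [Fintype V] (H : SimpleGraph V) : TopologicalSpace (NbhdSpace H) :=
  instTopologicalSpaceSubtype

/-- `X` is `k`-connected: the homotopy groups `π_i (X, x)` are trivial for `0 ≤ i ≤ k` and all
base points. -/
def KConnected (X : Type) [TopologicalSpace X] (k : ℕ) : Prop :=
  ∀ i : ℕ, i ≤ k → ∀ x : X, Subsingleton (HomotopyGroup.Pi i X x)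

/-- The connectivity of a nonempty space: the largest `k` such that `X` is `k`-connected, `-1` if
there is none and `+∞` if `X` is `k`-connected for all `k`. -/
noncomputable def conn (X : Type) [TopologicalSpace X] : EReal :=
  sSup ({-1} ∪ {e : EReal | ∃ k : ℕ, e = (k : EReal) ∧ KConnected X k})

end Pool.Agent.H380Z.Warm
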