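import Pool.Agent.H380Z.Warm.Graph

set_option autoImplicit false

namespace Pool.Agent.H380Z.Warm

/-- Products of signs along the path to the root. -/
def sgnT {d : ℕ} (s : Fin d → List (Fin d) → ℤ) : List (Fin d) → ℤ
  | [] => 1
  | i :: u => sgnT s u * s i u

lemma sgnT_cases {d : ℕ} (s : Fin d → List (Fin d) → ℤ) (hs : ∀ i u, s i u = 1 ∨ s i u = -1)
    (u : List (Fin d)) : sgnT s u = 1 ∨ sgnT s u = -1 := by
  induction u with
  | nil => exact Or.inl rfl
  | cons i u ih =>
    simp only [sgnT]
    rcases ih with h | h <;> rcases hs i u with h' | h' <;> simp [h, h']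

/-- The deformation of the special coordinate. -/
def defA (y a s : ℤ) : ℤ := max (max (min y (s - 15)) (min a (3 - s))) (-3)

/-- The deformation of the other coordinates. -/
def defB (y a s : ℤ) : ℤ := max (a - max (s - 6) 0) (min y (a + max (s - 6) 0))

lemma defA_bd (y a s : ℤ) (hy : |y| ≤ 3) (ha : |a| ≤ 3) : |defA y a s| ≤ 3 := by
  rw [abs_le] at *
  unfold defA
  omega

lemma defB_bd (y a s : ℤ) (hy : |y| ≤ 3) (ha : |a| ≤ 3) : |defB y a s| ≤ 3 := by
  rw [abs_le] at *
  unfold defB
  omega

lemma defA_lip (y y' a s : ℤ) (h : |y - y'| ≤ 1) : |defA y a s - defA y' a (s + 1)| ≤ 1 := by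
  rw [abs_le] at *
  unfold defA
  omega

lemma defB_lip (y y' a s : ℤ) (h : |y - y'| ≤ 1) : |defB y a s - defB y' a (s + 1)| ≤ 1 := by
  rw [abs_le] at *
  unfold defB
  omega

lemma defA_deep (y a s : ℤ) (hy : |y| ≤ 3) (hs : 18 ≤ s) : defA y a s = y := by
  rw [abs_le] at *
  unfold defA
  omega

lemma defB_deep (y a s : ℤ) (hy : |y| ≤ 3) (ha : |a| ≤ 3) (hs : 12 ≤ s) : defB y a s = y := by
  rw [abs_le] at *
  unfold defB
  omega

lemma defA_mid (y a s : ℤ) (h1 : 6 ≤ s) (h2 : s ≤ 12) : defA y a s = -3 := by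
  unfold defA
  omega

lemma defB_top (y a s : ℤ) (h1 : s ≤ 6) : defB y a s = a := by
  unfold defB
  omega

lemma defA_top (y a : ℤ) (ha : |a| ≤ 3) : defA y a 0 = a := by
  rw [abs_le] at *
  unfold defA
  omega

lemma exists_colour {d : ℕ} (c : Fin (d + 2)) (f : Fin d → Fin (d + 2)) :
    ∃ e : Fin (d + 2), e ≠ c ∧ ∀ i, f i ≠ e := by
  by_contra hcon
  push Not at hcon
  have hs : Function.Surjective (fun o : Option (Fin d) => o.elim c f) := by
    intro e
    by_cases he : e = c
    · exact ⟨none, he.symm⟩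
    · obtain ⟨i, hi⟩ := hcon e he
      exact ⟨some i, hi⟩
  have := Fintype.card_le_of_surjective _ hs
  simp at this

theorem not_cold (d n : ℕ)
    (hn : ∀ (f : {u : List (Fin d) // u.length ≤ 18} → Fin n) (j : Fin n),
      ∃ j0, j0 ≠ j ∧ ∀ u, f u ≠ j0)
    (φ : tree d →g HG n (d + 2)) : ¬ Cold φ := by
  rintro ⟨a, ha⟩
  apply ha 18 (by norm_num)
  have hadj : ∀ i u, (HG n (d + 2)).Adj (φ u) (φ (i :: u)) := fun i u => φ.map_rel (tree_adj i u)
  choose s hs1 hs2 using fun i u => (hadj i u).2
  choose wit hwit using fun u : List (Fin d) => (φ u).1.2.2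
  obtain ⟨j, hj⟩ := a.1.2.2
  obtain ⟨j0, hj0, hj0'⟩ := hn (fun u => wit u.1) j
  choose pick hpick1 hpick2 using
    fun u : List (Fin d) => exists_colour a.2 (fun i => (φ (i :: u)).2)
  obtain ⟨c2, hc2, -⟩ := exists_colour a.2 (fun _ => a.2)
  have hsg := sgnT_cases s hs1
  set y : List (Fin d) → Fin n → ℤ := fun u i => sgnT s u * (φ u).1.1 i with hy
  have hyabs : ∀ u i, |y u i| = |(φ u).1.1 i| := by
    intro u i
    rcases hsg u with h | h <;> simp [hy, h]
  have hybd : ∀ u i, |y u i| ≤ 3 := fun u i => (hyabs u i).trans_le ((φ u).1.2.1 i)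
  have hylip : ∀ k u i, |y u i - y (k :: u) i| ≤ 1 := by
    intro k u i
    have h1 := hs2 k u i
    have : y u i - y (k :: u) i = sgnT s u * ((φ u).1.1 i - s k u * (φ (k :: u)).1.1 i) := by
      simp only [hy, sgnT]
      ring
    rw [this, abs_mul]
    rcases hsg u with h | h <;> simp [h, h1]
  set z : List (Fin d) → Fin n → ℤ := fun u i =>
    if i = j0 then defA (y u i) (a.1.1 i) u.length else defB (y u i) (a.1.1 i) u.length with hz
  have hzbd : ∀ u i, |z u i| ≤ 3 := by
    intro u i
    simp only [hz]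
    split_ifs
    · exact defA_bd _ _ _ (hybd u i) (a.1.2.1 i)
    · exact defB_bd _ _ _ (hybd u i) (a.1.2.1 i)
  have hzlip : ∀ k u i, |z u i - z (k :: u) i| ≤ 1 := by
    intro k u i
    simp only [hz, List.length_cons]
    push_cast
    split_ifs
    · exact defA_lip _ _ _ _ (hylip k u i)
    · exact defB_lip _ _ _ _ (hylip k u i)
  have hzdeep : ∀ u : List (Fin d), 18 ≤ u.length → ∀ i, z u i = y u i := by
    intro u hu i
    simp only [hz]
    split_ifs
    · exact defA_deep _ _ _ (hybd u i) (by exact_mod_cast hu)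
    · exact defB_deep _ _ _ (hybd u i) (a.1.2.1 i) (by omega)
  have hzwit : ∀ u, ∃ i, |z u i| = 3 := by
    intro u
    by_cases h1 : u.length ≤ 6
    · refine ⟨j, ?_⟩
      simp only [hz]
      rw [if_neg hj0.symm, defB_top _ _ _ (by exact_mod_cast h1), hj]
    by_cases h2 : u.length ≤ 12
    · refine ⟨j0, ?_⟩
      simp only [hz]
      rw [if_pos trivial, defA_mid _ _ _ (by omega) (by exact_mod_cast h2)]
      rfl
    by_cases h3 : u.length ≤ 18
    · refine ⟨wit u, ?_⟩
      simp only [hz]
      rw [if_neg (hj0' ⟨u, h3⟩), defB_deep _ _ _ (hybd u _) (a.1.2.1 _) (by omega), hyabs, hwit]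
    · exact ⟨wit u, by rw [hzdeep u (by omega), hyabs, hwit]⟩
  have hsz : ∀ u i, |sgnT s u * z u i| = |z u i| := by
    intro u i
    rcases hsg u with h | h <;> simp [h]
  let pos : List (Fin d) → Bd n := fun u => ⟨fun i => sgnT s u * z u i,
    fun i => (hsz u i).trans_le (hzbd u i), (hzwit u).imp fun i hi => (hsz u i).trans hi⟩
  let col : List (Fin d) → Fin (d + 2) := fun u =>
    if 18 ≤ u.length then (φ u).2 else if u.length = 17 then pick u else
      if u.length % 2 = 0 then a.2 else c2
  refine ⟨mkHom (fun u => ((pos u, col u) : Vx n (d + 2))) ?_, ?_, ?_⟩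
  · intro k u
    refine ⟨?_, s k u, hs1 k u, fun i => ?_⟩
    · show col u ≠ col (k :: u)
      simp only [col, List.length_cons]
      by_cases h1 : 18 ≤ u.length
      · rw [if_pos h1, if_pos (by omega)]
        exact (hadj k u).1
      by_cases h2 : u.length = 17
      · rw [if_neg h1, if_pos h2, if_pos (by omega)]
        exact (hpick2 u k).symm
      by_cases h3 : u.length = 16
      · rw [if_neg h1, if_neg h2, if_pos (by omega), if_neg (by omega), if_pos (by omega)]
        exact (hpick1 _).symm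
      rw [if_neg h1, if_neg h2, if_neg (by omega : ¬ 18 ≤ u.length + 1),
        if_neg (by omega : ¬ u.length + 1 = 17)]
      by_cases h4 : u.length % 2 = 0
      · rw [if_pos h4, if_neg (by omega)]
        exact hc2.symm
      · rw [if_neg h4, if_pos (by omega)]
        exact hc2
    · show |sgnT s u * z u i - s k u * (sgnT s (k :: u) * z (k :: u) i)| ≤ 1
      have h1 := hzlip k u i
      have : sgnT s u * z u i - s k u * (sgnT s (k :: u) * z (k :: u) i)
          = sgnT s u * (z u i - z (k :: u) i) := by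
        simp only [sgnT]
        rcases hs1 k u with h | h <;> rw [h] <;> ring
      rw [this, abs_mul]
      rcases hsg u with h | h <;> simp [h, h1]
  · intro u hu
    rw [mkHom_apply]
    apply Prod.ext
    · apply Subtype.ext
      funext i
      show sgnT s u * z u i = _
      rw [hzdeep u hu.ge]
      simp only [hy]
      rcases hsg u with h | h <;> simp [h]
    · show col u = _
      simp only [col]
      rw [if_pos hu.ge]
  · rw [mkHom_apply]
    apply Prod.ext
    · apply Subtype.ext
      funext i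
      show sgnT s [] * z [] i = _
      simp only [sgnT, hz, one_mul, List.length_nil, Nat.cast_zero]
      split_ifs
      · exact defA_top _ _ (a.1.2.1 i)
      · exact defB_top _ _ _ (by norm_num)
    · show col [] = _
      simp [col]

theorem exists_dim (d : ℕ) : ∃ n : ℕ, 2 ≤ n ∧
    ∀ (f : {u : List (Fin d) // u.length ≤ 18} → Fin n) (j : Fin n),
      ∃ j0, j0 ≠ j ∧ ∀ u, f u ≠ j0 := by
  have : Finite {u : List (Fin d) // u.length ≤ 18} := (List.finite_length_le (Fin d) 18).to_subtype
  have := Fintype.ofFinite {u : List (Fin d) // u.length ≤ 18}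
  refine ⟨Fintype.card {u : List (Fin d) // u.length ≤ 18} + 2, by omega, ?_⟩
  intro f j
  by_contra hcon
  push Not at hcon
  have hs : Function.Surjective (fun o : Option _ => o.elim j f) := by
    intro e
    by_cases he : e = j
    · exact ⟨none, he.symm⟩
    · obtain ⟨i, hi⟩ := hcon e he
      exact ⟨some i, hi⟩
  have := Fintype.card_le_of_surjective _ hs
  simp at this

end Pool.Agent.H380Z.Warm
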