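import Pool.Agent.H380Z.Warm.Loop
import Pool.Agent.H380Z.Warm.Hot

set_option autoImplicit false

namespace Pool.Agent.H380Z.Warm

open Classical Topology Filter

variable {n m : ℕ}

lemma third (hm : 3 ≤ m) (c c' : Fin m) : ∃ e : Fin m, c ≠ e ∧ c' ≠ e := by
  by_contra hcon
  push Not at hcon
  have hs : Function.Surjective (fun o : Bool => if o then c else c') := by
    intro e
    by_cases he : c = e
    · exact ⟨true, he⟩
    · exact ⟨false, hcon e he⟩
  have := Fintype.card_le_of_surjective _ hs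
  simp at this
  omega

lemma step_lv (hm : 3 ≤ m) (v v' : Vx n m) (h : ∀ i, |v.1.1 i - v'.1.1 i| ≤ 1) :
    Joined (lv (by omega) v 1) (lv (by omega) v' 1) := by
  obtain ⟨e, he1, he2⟩ := third hm v.2 v'.2
  refine joined_lv (by omega) v v' ((v'.1, e) : Vx n m) ⟨he1, 1, Or.inl rfl, fun i => ?_⟩
    ⟨he2, 1, Or.inl rfl, fun i => by simp⟩ 1 ?_
  · simpa using h i
  · unfold sg
    rw [if_pos]
    · rfl
    · intro i
      exact (h i).trans (by norm_num)

/-- The opposite point. -/
def opp (v : Vx n m) : Vx n m :=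
  (⟨fun i => -v.1.1 i, fun i => by simpa using v.1.2.1 i,
    v.1.2.2.imp fun i hi => by simpa using hi⟩, v.2)

lemma flip_lv (hm : 3 ≤ m) (v : Vx n m) :
    Joined (lv (by omega) v 1) (lv (by omega) (opp v) (-1)) := by
  obtain ⟨e, he1, -⟩ := third hm v.2 v.2
  have h1 : (HG n m).Adj v ((v.1, e) : Vx n m) := ⟨he1, 1, Or.inl rfl, fun i => by simp⟩
  have h2 : (HG n m).Adj (opp v) ((v.1, e) : Vx n m) :=
    ⟨he1, -1, Or.inr rfl, fun i => by simp [opp]⟩
  refine joined_lv (by omega) v (opp v) _ h1 h2 (-1) ?_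
  rw [sg_eq v (opp v) v.1.1 1 (-1) (Or.inl rfl) (Or.inr rfl) (fun i => by simp)
    (fun i => by simp [opp])]
  rfl

/-- Raising all coordinates. -/
def raise (v : Vx n m) (j : Fin n) (hj : v.1.1 j = 3) (t : ℕ) : Vx n m :=
  (⟨fun i => min (v.1.1 i + t) 3, fun i => by
      have := v.1.2.1 i
      show |min (v.1.1 i + t) 3| ≤ 3
      rw [abs_le] at *
      omega, j, by
      show |min (v.1.1 j + t) 3| = 3
      rw [hj, min_eq_right (by omega)]
      rfl⟩, v.2)

/-- The corner of the cube. -/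
def corner (j : Fin n) (c : Fin m) : Vx n m := (⟨fun _ => 3, fun _ => by norm_num, j, rfl⟩, c)

lemma raise_lv (hm : 3 ≤ m) (v : Vx n m) (j : Fin n) (hj : v.1.1 j = 3) (c : Fin m) :
    Joined (lv (by omega) v 1) (lv (by omega) (corner j c) 1) := by
  have key : ∀ t : ℕ, Joined (lv (by omega) v 1) (lv (by omega) (raise v j hj t) 1) := by
    intro t
    induction t with
    | zero =>
      apply step_lv hm
      intro i
      have := v.1.2.1 i
      simp only [raise]
      rw [abs_le] at *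
      omega
    | succ t ih =>
      refine ih.trans (step_lv hm _ _ fun i => ?_)
      simp only [raise]
      rw [abs_le]
      omega
  refine (key 6).trans (step_lv hm _ _ fun i => ?_)
  have := v.1.2.1 i
  simp only [raise, corner]
  rw [abs_le] at *
  omega

lemma corner_eq (j j' : Fin n) (c : Fin m) : corner j c = corner j' c := rfl

theorem not_simply (hn : 2 ≤ n) (hm : 3 ≤ m) : ¬ KConnected (NbhdSpace (HG n m)) 1 := by
  intro hk
  let i0 : Fin n := ⟨0, by omega⟩
  let i1 : Fin n := ⟨1, by omega⟩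
  have hne : i1 ≠ i0 := by simp [i0, i1]
  let c : Fin m := ⟨0, by omega⟩
  let v : Vx n m := (⟨fun i => if i = i0 then 3 else -3, fun i => by
      show |if i = i0 then (3 : ℤ) else -3| ≤ 3
      split_ifs <;> norm_num,
    i0, by simp⟩, c)
  have h1 := raise_lv hm v i0 (by simp [v]) c
  have h2 := raise_lv hm (opp v) i1 (by simp [v, opp, hne]) c
  have h3 := flip_lv hm v
  have h4 : Joined (lv (by omega) (opp v) 1) (lv (by omega) (opp v) (-1)) :=
    (h2.trans h1.symm).trans h3
  refine not_subsingleton_pi1 pq (pq_cov n) FF FF_cont _ _ h4 rfl ?_ (hk 1 le_rfl _)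
  intro h
  have h5 := congrFun (congrArg Subtype.val h) i0
  simp [lv, rv, smul_val, opp, v] at h5
  norm_num at h5

theorem path_conn (hn : 1 ≤ n) (hm : 3 ≤ m) : PathConnectedSpace (NbhdSpace (HG n m)) := by
  let i0 : Fin n := ⟨0, by omega⟩
  let c : Fin m := ⟨0, by omega⟩
  have pr : ∀ {a b : PB n m}, Joined a b → Joined a.1.1 b.1.1 := by
    rintro a b ⟨P⟩
    exact ⟨P.map (f := fun z : PB n m => z.1.1) (by fun_prop)⟩
  have key : ∀ p : NbhdSpace (HG n m),
      Joined p (dlt (corner i0 c) (has_nbr (by omega) _)) := by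
    intro p
    obtain ⟨v, hv⟩ := exists_supp p
    obtain ⟨w, hw⟩ := p.2.2.2
    refine (joined_seg p (dlt v (has_nbr (by omega) v)) w hw
      (dlt_supp v _ w (hw v hv))).trans ?_
    obtain ⟨j, hj⟩ := v.1.2.2
    rcases abs_eq (by norm_num : (0:ℤ) ≤ 3) |>.1 hj with h | h
    · exact pr (raise_lv hm v j h c)
    · exact (pr (flip_lv hm v)).trans (pr (raise_lv hm (opp v) j (by simp [opp, h]) c))
  exact ⟨⟨dlt (corner i0 c) (has_nbr (by omega) _)⟩, fun p q => (key p).trans (key q).symm⟩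

theorem conn_zero (hn : 2 ≤ n) (hm : 3 ≤ m) : conn (NbhdSpace (HG n m)) = 0 := by
  have h0 : KConnected (NbhdSpace (HG n m)) 0 := by
    intro i hi x
    have : i = 0 := by omega
    subst this
    have := path_conn (n := n) (by omega) hm
    exact (HomotopyGroup.pi0EquivZerothHomotopy (X := NbhdSpace (HG n m)) (x := x)).subsingleton
  unfold conn
  apply le_antisymm
  · apply sSup_le
    rintro e (he | ⟨k, rfl, hk⟩)
    · rw [Set.mem_singleton_iff.1 he]
      exact (by simp : (-1 : EReal) ≤ 0)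
    · have : k = 0 := by
        by_contra hk0
        exact not_simply hn hm (fun i hi x => hk i (by omega) x)
      simp [this]
  · exact le_sSup (Or.inr ⟨0, by simp, h0⟩)

theorem main (w : ℕ) (hw : 3 ≤ w) :
    ∃ (V : Type) (_ : Fintype V) (H : SimpleGraph V), H.edgeSet.Nonempty ∧
      IsGreatest {d : ℕ | IsWarm H d} w ∧ conn (NbhdSpace H) = 0 := by
  obtain ⟨d, rfl⟩ : ∃ d, w = d + 2 := ⟨w - 2, by omega⟩
  obtain ⟨n, hn, hdim⟩ := exists_dim d
  refine ⟨Vx n (d + 2), inferInstance, HG n (d + 2), ?_, ⟨⟨by omega, ?_⟩, ?_⟩, conn_zero hn hw⟩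
  · let v : Vx n (d + 2) := corner ⟨0, by omega⟩ 0
    obtain ⟨u, hu⟩ := has_nbr (by omega) v
    exact ⟨s(v, u), hu⟩
  · exact not_cold d n hdim
  · intro e he
    by_contra hlt
    exact not_warm n (d + 1) e (by omega) (corner (m := 1) ⟨0, by omega⟩ 0).1 (by omega) he

end Pool.Agent.H380Z.Warm
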