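import Mathlib

set_option autoImplicit false

namespace Pool.Agent.H380Z.Warm

open Topology unitInterval

theorem not_subsingleton_pi1 {X E Y : Type} [TopologicalSpace X] [TopologicalSpace E]
    [TopologicalSpace Y] (q : E → Y) (hq : IsCoveringMap q) (F : X → Y) (hF : Continuous F)
    (a b : {z : X × E // q z.2 = F z.1}) (hj : Joined a b) (h1 : a.1.1 = b.1.1)
    (h2 : a.1.2 ≠ b.1.2) : ¬ Subsingleton (HomotopyGroup.Pi 1 X a.1.1) := by
  intro hs
  obtain ⟨P⟩ := hj
  have hs' : Subsingleton (FundamentalGroup X a.1.1) :=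
    (HomotopyGroup.pi1EquivFundamentalGroup (X := X) (x := a.1.1)).symm.subsingleton
  let γ : Path a.1.1 a.1.1 :=
    { toFun := fun t => (P t).1.1
      continuous_toFun := by fun_prop
      source' := by simp
      target' := by simp [h1] }
  have hh : γ.Homotopic (Path.refl a.1.1) := by
    have : (Path.Homotopic.Quotient.mk γ : Path.Homotopic.Quotient a.1.1 a.1.1) =
        Path.Homotopic.Quotient.mk (Path.refl a.1.1) := hs'.elim _ _
    exact Quotient.exact this
  let Γ : C(I, E) := ⟨fun t => (P t).1.2, by fun_prop⟩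
  let c : C(I, E) := ContinuousMap.const I a.1.2
  have h3 : (ContinuousMap.comp ⟨q, hq.continuous⟩ Γ).HomotopicRel
      (ContinuousMap.comp ⟨q, hq.continuous⟩ c) {0, 1} := by
    obtain ⟨K⟩ := hh
    have K2 := ContinuousMap.HomotopyRel.compContinuousMap K (⟨F, hF⟩ : C(X, Y))
    have e1 : ContinuousMap.comp ⟨q, hq.continuous⟩ Γ =
        (⟨F, hF⟩ : C(X, Y)).comp γ.toContinuousMap := by
      ext t
      exact (P t).2
    have e2 : ContinuousMap.comp ⟨q, hq.continuous⟩ c =
        (⟨F, hF⟩ : C(X, Y)).comp (Path.refl a.1.1).toContinuousMap := by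
      ext t
      exact a.2
    rw [e1, e2]
    exact ⟨K2⟩
  have h4 : Γ.HomotopicRel c {0, 1} :=
    (hq.homotopicRel_iff_comp ⟨0, by simp, by simp [Γ, c]⟩).2 h3
  obtain ⟨K⟩ := h4
  have h5 : Γ 1 = c 1 := by
    rw [← K.eq_fst 0 (by simp : (1 : I) ∈ ({0, 1} : Set I)),
      ← K.eq_snd 0 (by simp : (1 : I) ∈ ({0, 1} : Set I))]
  apply h2
  simpa [Γ, c] using h5.symm

/-- Nonzero vectors. -/
def NZ (n : ℕ) : Type := {z : Fin n → ℝ // z ≠ 0}

instance (n : ℕ) : TopologicalSpace (NZ n) := instTopologicalSpaceSubtype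

instance (n : ℕ) : T2Space (NZ n) := inferInstanceAs (T2Space {z : Fin n → ℝ // z ≠ 0})

instance (n : ℕ) : LocallyCompactSpace (NZ n) :=
  (isOpen_compl_singleton (x := (0 : Fin n → ℝ))).locallyCompactSpace

instance (n : ℕ) : MulAction ℤˣ (NZ n) where
  smul u z := ⟨u • z.1, by
    intro h
    apply z.2
    have := congrArg (fun w => u⁻¹ • w) h
    simp only [inv_smul_smul, smul_zero] at this
    exact this⟩
  one_smul z := Subtype.ext (one_smul _ _)
  mul_smul u v z := Subtype.ext (mul_smul _ _ _)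

lemma smul_val {n : ℕ} (u : ℤˣ) (z : NZ n) : (u • z).1 = u • z.1 := rfl

instance (n : ℕ) : ContinuousConstSMul ℤˣ (NZ n) where
  continuous_const_smul u := Continuous.subtype_mk
    ((continuous_const_smul u).comp continuous_subtype_val) _

instance (n : ℕ) : IsCancelSMul ℤˣ (NZ n) := by
  rw [isCancelSMul_iff_eq_one_of_smul_eq]
  intro u z h
  rcases Int.units_eq_one_or u with rfl | rfl
  · rfl
  · exfalso
    apply z.2
    have h1 := congrArg Subtype.val h
    rw [smul_val] at h1
    have h2 : -z.1 = z.1 := by simpa using h1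
    ext i
    have := congrFun h2 i
    simp only [Pi.neg_apply, Pi.zero_apply] at this ⊢
    linarith

/-- The quotient by sign. -/
def PQ (n : ℕ) : Type := Quotient (MulAction.orbitRel ℤˣ (NZ n))

instance (n : ℕ) : TopologicalSpace (PQ n) :=
  inferInstanceAs (TopologicalSpace (Quotient (MulAction.orbitRel ℤˣ (NZ n))))

/-- The quotient map. -/
def pq {n : ℕ} (z : NZ n) : PQ n := Quotient.mk (MulAction.orbitRel ℤˣ (NZ n)) z

lemma pq_cov (n : ℕ) : IsCoveringMap (pq (n := n)) :=
  (isQuotientCoveringMap_quotientMk_of_properlyDiscontinuousSMul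
    (G := ℤˣ) (E := NZ n)).isCoveringMap

lemma pq_eq {n : ℕ} (z w : NZ n) (h : z.1 = w.1 ∨ z.1 = -w.1) : pq z = pq w := by
  apply Quotient.sound
  rcases h with h | h
  · exact ⟨1, Subtype.ext (by rw [smul_val, h]; simp)⟩
  · exact ⟨-1, Subtype.ext (by rw [smul_val, h]; simp)⟩

end Pool.Agent.H380Z.Warm
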