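import Pool.Agent.H380Z.Warm.Defs
import Pool.Agent.H380Z.Warm.Topo

set_option autoImplicit false

namespace Pool.Agent.H380Z.Warm

/-- Lattice points on the boundary of the cube `[-3,3]^n`. -/
def Bd (n : ℕ) : Type := {x : Fin n → ℤ // (∀ i, |x i| ≤ 3) ∧ ∃ i, |x i| = 3}

instance (n : ℕ) : Finite (Bd n) := by
  apply Finite.of_injective
    (fun x : Bd n => fun i : Fin n => (⟨x.1 i, abs_le.1 (x.2.1 i)⟩ : Set.Icc (-3 : ℤ) 3))
  intro x y h
  apply Subtype.ext
  funext i
  exact congrArg Subtype.val (congrFun h i)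

/-- Vertices. -/
def Vx (n m : ℕ) : Type := Bd n × Fin m

instance (n m : ℕ) : Finite (Vx n m) := inferInstanceAs (Finite (Bd n × Fin m))

noncomputable instance (n m : ℕ) : Fintype (Vx n m) := Fintype.ofFinite _

/-- The graph. -/
def HG (n m : ℕ) : SimpleGraph (Vx n m) where
  Adj v w := v.2 ≠ w.2 ∧ ∃ s : ℤ, (s = 1 ∨ s = -1) ∧ ∀ i, |v.1.1 i - s * w.1.1 i| ≤ 1
  symm := ⟨by
    rintro v w ⟨h1, s, hs, h2⟩
    refine ⟨h1.symm, s, hs, fun i => ?_⟩
    have := h2 i
    rcases hs with rfl | rfl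
    · rw [abs_le] at this ⊢
      constructor <;> linarith [this.1, this.2]
    · rw [abs_le] at this ⊢
      constructor <;> linarith [this.1, this.2]⟩
  loopless := ⟨fun v h => h.1 rfl⟩

lemma tree_adj {d : ℕ} (i : Fin d) (u : List (Fin d)) : (tree d).Adj u (i :: u) := by
  unfold tree
  rw [SimpleGraph.fromRel_adj]
  exact ⟨(List.cons_ne_self i u).symm, Or.inl ⟨i, rfl⟩⟩

/-- Build a homomorphism from the tree. -/
def mkHom {V : Type} {G : SimpleGraph V} {d : ℕ} (f : List (Fin d) → V)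
    (h : ∀ i u, G.Adj (f u) (f (i :: u))) : tree d →g G where
  toFun := f
  map_rel' := by
    intro a b hab
    unfold tree at hab
    rw [SimpleGraph.fromRel_adj] at hab
    rcases hab.2 with ⟨i, rfl⟩ | ⟨i, rfl⟩
    · exact h i a
    · exact (h i b).symm

lemma mkHom_apply {V : Type} {G : SimpleGraph V} {d : ℕ} (f : List (Fin d) → V)
    (h : ∀ i u, G.Adj (f u) (f (i :: u))) (u : List (Fin d)) : mkHom f h u = f u := rfl

/-- A colour different from `c`, chosen according to `t`; all other colours occur. -/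
def other {m : ℕ} (c : Fin (m + 1)) (t : ℕ) (hm : 0 < m) : Fin (m + 1) :=
  c.succAbove ⟨t % m, Nat.mod_lt _ hm⟩

/-- The frozen colouring of the tree. -/
def froz {m d : ℕ} (hm : 0 < m) : List (Fin d) → Fin (m + 1)
  | [] => 0
  | i :: u => other (froz hm u) i.1 hm

theorem not_warm (n m d : ℕ) (hm : 0 < m) (x0 : Bd n) (hd : m + 2 ≤ d) :
    ¬ IsWarm (HG n (m + 1)) d := by
  rintro ⟨-, h⟩
  let φ : tree (d - 2) →g HG n (m + 1) := mkHom (fun u => ((x0, froz hm u) : Vx n (m + 1))) (by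
    intro i u
    refine ⟨?_, 1, Or.inl rfl, fun j => by simp⟩
    exact (Fin.succAbove_ne _ _).symm)
  apply h φ
  refine ⟨((x0, other 0 0 hm) : Vx n (m + 1)), ?_⟩
  rintro k - ⟨ψ, h1, h2⟩
  have key : ∀ j : ℕ, j ≤ k → ∀ u : List (Fin (d - 2)), u.length = k - j →
      (ψ u).2 = froz hm u := by
    intro j
    induction j with
    | zero =>
      intro _ u hu
      rw [h1 u (by simpa using hu)]
      rfl
    | succ j ih =>
      intro hj u hu
      by_contra hne
      obtain ⟨t, ht⟩ := Fin.exists_succAbove_eq hne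
      have hlt : t.1 < d - 2 := by have := t.2; omega
      have h3 := ih (by omega) (⟨t.1, hlt⟩ :: u) (by simp only [List.length_cons]; omega)
      have h4 : (HG n (m + 1)).Adj (ψ u) (ψ (⟨t.1, hlt⟩ :: u)) := ψ.map_rel (tree_adj _ _)
      apply h4.1
      rw [h3, ← ht]
      simp only [froz, other]
      congr 1
      apply Fin.ext
      simp [Nat.mod_eq_of_lt t.2]
  have h5 := key k le_rfl [] (by simp)
  rw [h2] at h5
  exact Fin.succAbove_ne (0 : Fin (m + 1)) ⟨0 % m, Nat.mod_lt _ hm⟩ h5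

end Pool.Agent.H380Z.Warm
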