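import Pool.Agent.H380Z.Warm.Graph

set_option autoImplicit false

namespace Pool.Agent.H380Z.Warm

open Classical Topology Filter

variable {n m : ℕ}

/-- The relative sign of two vertices. -/
noncomputable def sg (v w : Vx n m) : ℤ := if ∀ i, |v.1.1 i - w.1.1 i| ≤ 2 then 1 else -1

lemma sg_eq (v v' : Vx n m) (y : Fin n → ℤ) (s s' : ℤ) (hs : s = 1 ∨ s = -1)
    (hs' : s' = 1 ∨ s' = -1) (h : ∀ i, |v.1.1 i - s * y i| ≤ 1)
    (h' : ∀ i, |v'.1.1 i - s' * y i| ≤ 1) : sg v v' = s * s' := by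
  unfold sg
  obtain ⟨j, hj⟩ := v.1.2.2
  have hjj : v.1.1 j = 3 ∨ v.1.1 j = -3 := by
    rcases abs_eq (by norm_num : (0:ℤ) ≤ 3) |>.1 hj with h | h
    · exact Or.inl h
    · exact Or.inr h
  rcases hs with rfl | rfl <;> rcases hs' with rfl | rfl
  · rw [if_pos]
    · rfl
    · intro i
      have h1 := h i
      have h2 := h' i
      rw [abs_le] at *
      omega
  · rw [if_neg]
    · rfl
    · intro hc
      have h1 := h j
      have h2 := h' j
      have h3 := hc j
      rw [abs_le] at *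
      omega
  · rw [if_neg]
    · rfl
    · intro hc
      have h1 := h j
      have h2 := h' j
      have h3 := hc j
      rw [abs_le] at *
      omega
  · rw [if_pos]
    · rfl
    · intro i
      have h1 := h i
      have h2 := h' i
      rw [abs_le] at *
      omega

/-- The local lift attached to the vertex `v`. -/
noncomputable def GG (v : Vx n m) (p : Vx n m → ℝ) : Fin n → ℝ :=
  fun i => ∑ v', p v' * ((sg v v' * v'.1.1 i : ℤ) : ℝ)

lemma GG_cont (v : Vx n m) : Continuous (GG v) := by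
  unfold GG
  fun_prop

lemma GG_struct (p : NbhdSpace (HG n m)) : ∃ Z : Fin n → ℝ, Z ≠ 0 ∧
    ∀ v, p.1 v ≠ 0 → GG v p.1 = Z ∨ GG v p.1 = -Z := by
  obtain ⟨p, hp0, hp1, w, hw⟩ := p
  have hw' : ∀ v, ∃ s : ℤ, (s = 1 ∨ s = -1) ∧ (p v ≠ 0 → ∀ i, |v.1.1 i - s * w.1.1 i| ≤ 1) := by
    intro v
    by_cases hv : p v = 0
    · exact ⟨1, Or.inl rfl, fun h => (h hv).elim⟩
    · obtain ⟨-, s, hs, h⟩ := hw v hv
      exact ⟨s, hs, fun _ => h⟩
  choose s hs1 hs2 using hw'
  refine ⟨fun i => ∑ v', p v' * ((s v' * v'.1.1 i : ℤ) : ℝ), ?_, ?_⟩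
  · obtain ⟨j, hj⟩ := w.1.2.2
    intro hZ
    have h0 := congrFun hZ j
    simp only [Pi.zero_apply] at h0
    have h1 : ∑ v', p v' * 6 ≤ ∑ v', (w.1.1 j : ℝ) * (p v' * ((s v' * v'.1.1 j : ℤ) : ℝ)) := by
      apply Finset.sum_le_sum
      intro v' _
      by_cases hv : p v' = 0
      · simp [hv]
      · have h2 := hs2 v' hv j
        have h3 : (6 : ℤ) ≤ w.1.1 j * (s v' * v'.1.1 j) := by
          rw [abs_le] at h2
          rcases abs_eq (by norm_num : (0:ℤ) ≤ 3) |>.1 hj with h | h <;>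
            rcases hs1 v' with h' | h' <;> rw [h, h'] at h2 ⊢ <;> omega
        have h4 : (6 : ℝ) ≤ (w.1.1 j : ℝ) * ((s v' * v'.1.1 j : ℤ) : ℝ) := by exact_mod_cast h3
        have := mul_le_mul_of_nonneg_left h4 (hp0 v')
        linarith
    rw [← Finset.mul_sum, h0, ← Finset.sum_mul, hp1] at h1
    norm_num at h1
  · intro v hv
    have key : ∀ i, GG v p i = (s v : ℝ) * ∑ v', p v' * ((s v' * v'.1.1 i : ℤ) : ℝ) := by
      intro i
      unfold GG
      rw [Finset.mul_sum]
      apply Finset.sum_congr rfl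
      intro v' _
      by_cases hv' : p v' = 0
      · simp [hv']
      · rw [sg_eq v v' w.1.1 (s v) (s v') (hs1 v) (hs1 v') (hs2 v hv) (hs2 v' hv')]
        push_cast
        ring
    rcases hs1 v with h | h
    · left
      funext i
      simp [key i, h]
    · right
      funext i
      simp [key i, h]

lemma GG_ne (p : NbhdSpace (HG n m)) (v : Vx n m) (hv : p.1 v ≠ 0) : GG v p.1 ≠ 0 := by
  obtain ⟨Z, hZ, h⟩ := GG_struct p
  rcases h v hv with h | h <;> rw [h]
  · exact hZ
  · exact neg_ne_zero.2 hZ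

lemma GG_rel (p : NbhdSpace (HG n m)) (v v' : Vx n m) (hv : p.1 v ≠ 0) (hv' : p.1 v' ≠ 0) :
    GG v p.1 = GG v' p.1 ∨ GG v p.1 = -GG v' p.1 := by
  obtain ⟨Z, hZ, h⟩ := GG_struct p
  rcases h v hv with h1 | h1 <;> rcases h v' hv' with h2 | h2 <;> simp [h1, h2]

lemma exists_supp {V : Type} [Fintype V] {H : SimpleGraph V} (p : NbhdSpace H) :
    ∃ v, p.1 v ≠ 0 := by
  by_contra h
  push Not at h
  have := p.2.2.1
  simp [h] at this

/-- The map to the projective quotient. -/
noncomputable def FF (p : NbhdSpace (HG n m)) : PQ n :=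
  pq ⟨GG (exists_supp p).choose p.1, GG_ne p _ (exists_supp p).choose_spec⟩

lemma FF_eq (p : NbhdSpace (HG n m)) (v : Vx n m) (hv : p.1 v ≠ 0) (z : NZ n)
    (hz : z.1 = GG v p.1 ∨ z.1 = -GG v p.1) : pq z = FF p := by
  unfold FF
  apply pq_eq
  rcases GG_rel p v _ hv (exists_supp p).choose_spec with h | h <;> rcases hz with h' | h' <;>
    simp [h, h']

lemma FF_cont : Continuous (FF (n := n) (m := m)) := by
  rw [continuous_iff_continuousAt]
  intro p0
  obtain ⟨v, hv⟩ := exists_supp p0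
  have hU : ∀ᶠ p : NbhdSpace (HG n m) in 𝓝 p0, p.1 v ≠ 0 := by
    have hc : Continuous (fun p : NbhdSpace (HG n m) => p.1 v) :=
      (continuous_apply v).comp continuous_subtype_val
    exact hc.continuousAt.eventually_ne hv
  let G' : NbhdSpace (HG n m) → NZ n := fun p =>
    if h : p.1 v ≠ 0 then ⟨GG v p.1, GG_ne p v h⟩ else ⟨GG v p0.1, GG_ne p0 v hv⟩
  have hG' : ContinuousAt G' p0 := by
    refine (Topology.IsInducing.subtypeVal (t := {z : Fin n → ℝ | z ≠ 0})).continuousAt_iff.2 ?_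
    have hc : Continuous (fun p : NbhdSpace (HG n m) => GG v p.1) :=
      (GG_cont v).comp continuous_subtype_val
    refine hc.continuousAt.congr ?_
    filter_upwards [hU] with p hp
    simp only [Function.comp, G', dif_pos hp]
  have h2 : ContinuousAt (fun p => pq (G' p)) p0 :=
    (pq_cov n).continuous.continuousAt.comp hG'
  refine h2.congr ?_
  filter_upwards [hU] with p hp
  apply FF_eq p v hp
  left
  simp only [G', dif_pos hp]

/-- The point of the realisation given by a vertex with a neighbour. -/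
noncomputable def dlt {V : Type} [Fintype V] {H : SimpleGraph V} (v : V) (h : ∃ w, H.Adj v w) :
    NbhdSpace H :=
  ⟨fun u => if u = v then 1 else 0, fun u => by
      show (0 : ℝ) ≤ if u = v then 1 else 0
      split_ifs <;> norm_num, by simp,
    h.imp fun w hw u hu => by
      by_cases e : u = v
      · rw [e]; exact hw
      · simp [e] at hu⟩

/-- The segment between two points in a common face. -/
noncomputable def seg {V : Type} [Fintype V] {H : SimpleGraph V} (p q : NbhdSpace H) (w : V)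
    (hp : ∀ v, p.1 v ≠ 0 → H.Adj v w) (hq : ∀ v, q.1 v ≠ 0 → H.Adj v w) (t : unitInterval) :
    NbhdSpace H :=
  ⟨fun u => (1 - t.1) * p.1 u + t.1 * q.1 u,
    fun u => add_nonneg (mul_nonneg (sub_nonneg.2 t.2.2) (p.2.1 u)) (mul_nonneg t.2.1 (q.2.1 u)),
    by rw [Finset.sum_add_distrib, ← Finset.mul_sum, ← Finset.mul_sum, p.2.2.1, q.2.2.1]; ring,
    w, fun u hu => by
      by_cases e : p.1 u = 0
      · apply hq
        intro e'
        simp [e, e'] at hu
      · exact hp u e⟩

lemma seg_cont {V : Type} [Fintype V] {H : SimpleGraph V} (p q : NbhdSpace H) (w : V)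
    (hp : ∀ v, p.1 v ≠ 0 → H.Adj v w) (hq : ∀ v, q.1 v ≠ 0 → H.Adj v w) :
    Continuous (seg p q w hp hq) := by
  apply Continuous.subtype_mk
  fun_prop

lemma joined_seg {V : Type} [Fintype V] {H : SimpleGraph V} (p q : NbhdSpace H) (w : V)
    (hp : ∀ v, p.1 v ≠ 0 → H.Adj v w) (hq : ∀ v, q.1 v ≠ 0 → H.Adj v w) : Joined p q :=
  ⟨{ toFun := seg p q w hp hq
     continuous_toFun := seg_cont p q w hp hq
     source' := Subtype.ext (by funext u; simp [seg])
     target' := Subtype.ext (by funext u; simp [seg]) }⟩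

lemma dlt_supp {V : Type} [Fintype V] {H : SimpleGraph V} (v : V) (h : ∃ w, H.Adj v w) (w : V)
    (hw : H.Adj v w) : ∀ u, (dlt v h).1 u ≠ 0 → H.Adj u w := by
  intro u hu
  by_cases e : u = v
  · rw [e]; exact hw
  · simp [dlt, e] at hu

lemma has_nbr (hm : 2 ≤ m) (v : Vx n m) : ∃ w, (HG n m).Adj v w := by
  have : Nontrivial (Fin m) := Fin.nontrivial_iff_two_le.2 hm
  obtain ⟨c, hc⟩ := exists_ne v.2
  exact ⟨(v.1, c), hc.symm, 1, Or.inl rfl, fun i => by simp⟩

/-- The real vector of a vertex. -/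
def rv (v : Vx n m) : NZ n := ⟨fun i => (v.1.1 i : ℝ), by
  obtain ⟨j, hj⟩ := v.1.2.2
  intro h
  have h1 := congrFun h j
  simp only [Pi.zero_apply, Int.cast_eq_zero] at h1
  rw [h1] at hj
  norm_num at hj⟩

lemma sg_self (v : Vx n m) : sg v v = 1 := by
  unfold sg
  simp

lemma GG_dlt (v v' : Vx n m) (h : ∃ w, (HG n m).Adj v' w) (i : Fin n) :
    GG v (dlt v' h).1 i = ((sg v v' * v'.1.1 i : ℤ) : ℝ) := by
  unfold GG dlt
  simp

/-- The pulled back cover. -/
abbrev PB (n m : ℕ) : Type := {z : NbhdSpace (HG n m) × NZ n // pq z.2 = FF z.1}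

/-- Canonical lift of a vertex. -/
noncomputable def lv (hm : 2 ≤ m) (v : Vx n m) (e : ℤˣ) : PB n m :=
  ⟨(dlt v (has_nbr hm v), e • rv v), by
    apply FF_eq _ v (by simp [dlt])
    rcases Int.units_eq_one_or e with rfl | rfl
    · left
      funext i
      rw [GG_dlt, sg_self]
      simp [rv]
    · right
      funext i
      rw [Pi.neg_apply, GG_dlt, sg_self, smul_val]
      simp [rv]⟩

lemma joined_lv (hm : 2 ≤ m) (v v' w : Vx n m) (h : (HG n m).Adj v w) (h' : (HG n m).Adj v' w)
    (e : ℤˣ) (he : sg v v' = e) : Joined (lv hm v 1) (lv hm v' e) := by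
  have hp := dlt_supp v (has_nbr hm v) w h
  have hq := dlt_supp v' (has_nbr hm v') w h'
  have hsym : sg v' v = e := by
    rw [← he]
    unfold sg
    simp only [abs_sub_comm]
  set σ := seg (dlt v (has_nbr hm v)) (dlt v' (has_nbr hm v')) w hp hq with hσ
  have hlin : ∀ (u : Vx n m) (t : unitInterval) (i : Fin n), GG u (σ t).1 i =
      (1 - t.1) * ((sg u v * v.1.1 i : ℤ) : ℝ) + t.1 * ((sg u v' * v'.1.1 i : ℤ) : ℝ) := by
    intro u t i
    rw [← GG_dlt u v (has_nbr hm v), ← GG_dlt u v' (has_nbr hm v')]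
    unfold GG
    rw [Finset.mul_sum, Finset.mul_sum, ← Finset.sum_add_distrib]
    apply Finset.sum_congr rfl
    intro x _
    simp only [hσ, seg]
    ring
  have hrel : ∀ t : unitInterval, ∃ u, (σ t).1 u ≠ 0 ∧
      (GG v (σ t).1 = GG u (σ t).1 ∨ GG v (σ t).1 = -GG u (σ t).1) := by
    intro t
    by_cases h0 : (σ t).1 v = 0
    · have h1 : (σ t).1 v' ≠ 0 := by
        obtain ⟨u, hu⟩ := exists_supp (σ t)
        by_cases e1 : u = v'
        · rw [← e1]; exact hu
        · by_cases e2 : u = v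
          · rw [e2] at hu; exact (hu h0).elim
          · simp [hσ, seg, dlt, e1, e2] at hu
      refine ⟨v', h1, ?_⟩
      rcases Int.units_eq_one_or e with rfl | rfl
      · left
        funext i
        rw [hlin, hlin, sg_self, sg_self, he, hsym]
        simp
      · right
        funext i
        rw [Pi.neg_apply, hlin, hlin, sg_self, sg_self, he, hsym]
        simp
        ring
    · exact ⟨v, h0, Or.inl rfl⟩
  have hne : ∀ t : unitInterval, GG v (σ t).1 ≠ 0 := by
    intro t
    obtain ⟨u, hu, h1⟩ := hrel t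
    rcases h1 with h1 | h1 <;> rw [h1]
    · exact GG_ne _ u hu
    · exact neg_ne_zero.2 (GG_ne _ u hu)
  refine ⟨{ toFun := fun t => ⟨(σ t, ⟨GG v (σ t).1, hne t⟩), ?_⟩
            continuous_toFun := ?_
            source' := ?_
            target' := ?_ }⟩
  · obtain ⟨u, hu, h1⟩ := hrel t
    exact FF_eq _ u hu _ h1
  · apply Continuous.subtype_mk
    apply Continuous.prodMk (seg_cont _ _ w hp hq)
    apply Continuous.subtype_mk
    exact (GG_cont v).comp (continuous_subtype_val.comp (seg_cont _ _ w hp hq))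
  · apply Subtype.ext
    apply Prod.ext
    · exact Subtype.ext (by funext u; simp [hσ, seg, lv])
    · apply Subtype.ext
      funext i
      show GG v (σ 0).1 i = _
      rw [hlin, sg_self]
      simp [lv, rv]
  · apply Subtype.ext
    apply Prod.ext
    · exact Subtype.ext (by funext u; simp [hσ, seg, lv])
    · apply Subtype.ext
      funext i
      show GG v (σ 1).1 i = _
      rw [hlin, he]
      rcases Int.units_eq_one_or e with rfl | rfl <;> simp [lv, rv, smul_val]

end Pool.Agent.H380Z.Warm
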